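import Pool.Agent.Helper42.FR.Stmts

/-! # Row RB of the sheet FR (MP_3569d7_al): the stable form of `exact` -/

set_option autoImplicit false

namespace Pool.Agent.Helper21.FR

open Matrix Pool.Agent.Helper81.Fmr Pool.Agent.Helper42.FR

universe u

variable {F : Type u} [Field F]

theorem rb_schur {p q r : Type} [Fintype p] [DecidableEq p] [Fintype q] [Fintype r]
    (B : Matrix p r F) (C : Matrix q p F) (D : Matrix q r F) :
    Fintype.card p + (D - C * B).rank ≤ (fromBlocks 1 B C D).rank := by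
  classical
  let g : ((p → F) × LinearMap.range (D - C * B).mulVecLin) →ₗ[F] (p ⊕ q → F) :=
    { toFun := fun x => Sum.elim x.1 (C.mulVec x.1 + x.2.1)
      map_add' := by
        intro x y
        ext i
        rcases i with i | i
        · rfl
        · simp only [Prod.fst_add, Prod.snd_add, Submodule.coe_add, mulVec_add, Sum.elim_inr,
            Pi.add_apply]
          ring
      map_smul' := by
        intro c x
        ext i
        rcases i with i | i
        · rfl
        · simp only [Prod.smul_fst, Prod.smul_snd, Submodule.coe_smul, mulVec_smul, Sum.elim_inr,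
            Pi.add_apply, Pi.smul_apply, smul_eq_mul, RingHom.id_apply]
          ring }
  have hinj : Function.Injective g := by
    intro x y hxy
    have h1 : x.1 = y.1 := by
      ext i
      exact congrFun hxy (Sum.inl i)
    have h2 : (x.2 : q → F) = y.2 := by
      ext i
      have h3 : (C.mulVec x.1 + x.2.1) i = (C.mulVec y.1 + y.2.1) i := congrFun hxy (Sum.inr i)
      rw [h1, Pi.add_apply, Pi.add_apply] at h3
      exact add_left_cancel h3
    exact Prod.ext h1 (Subtype.ext h2)
  have hran : ∀ x, g x ∈ LinearMap.range (fromBlocks 1 B C D).mulVecLin := by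
    rintro ⟨u, ⟨w, v, rfl⟩⟩
    refine ⟨Sum.elim (u - B.mulVec v) v, ?_⟩
    rw [mulVecLin_apply, fromBlocks_mulVec]
    have e1 : (Sum.elim (u - B.mulVec v) v) ∘ Sum.inl = u - B.mulVec v := rfl
    have e2 : (Sum.elim (u - B.mulVec v) v) ∘ Sum.inr = v := rfl
    rw [e1, e2]
    show Sum.elim _ _ = Sum.elim u (C.mulVec u + (D - C * B).mulVec v)
    rw [one_mulVec, sub_add_cancel, mulVec_sub, sub_mulVec, mulVec_mulVec]
    congr 1
    abel
  have h := LinearMap.finrank_le_finrank_of_injective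
    (f := g.codRestrict (LinearMap.range (fromBlocks 1 B C D).mulVecLin) hran)
    (by
      intro x y hxy
      exact hinj (congrArg Subtype.val hxy))
  rw [Module.finrank_prod, Module.finrank_fintype_fun_eq_card] at h
  exact h

theorem rb_key {V μ : Type} [DecidableEq V] [Fintype V] [Fintype μ] {b d : ℕ}
    (M : Matrix ((Fin 3 ⊕ Option (V × Fin 3)) × Fin b) ((Fin 3 ⊕ ((V × Bool) ⊕ μ)) × Fin b) F)
    (h1 : ∀ a a' k l, M (Sum.inl a, k) (Sum.inl a', l) = if a = a' ∧ k = l then 1 else 0)
    (hr : M.rank ≤ 3 * b + d) (i : Option (V × Fin 3)) (j : (V × Bool) ⊕ μ) :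
    AE d (blk M (Sum.inr i) (Sum.inr j)) (blk M (Sum.inr i) (Sum.inl 0) * blk M (Sum.inl 0) (Sum.inr j)
      + blk M (Sum.inr i) (Sum.inl 1) * blk M (Sum.inl 1) (Sum.inr j)
      + blk M (Sum.inr i) (Sum.inl 2) * blk M (Sum.inl 2) (Sum.inr j)) := by
  classical
  set f : (Fin 3 × Fin b) ⊕ Fin b → (Fin 3 ⊕ Option (V × Fin 3)) × Fin b :=
    Sum.elim (fun x => (Sum.inl x.1, x.2)) (fun k => (Sum.inr i, k)) with hf
  set g : (Fin 3 × Fin b) ⊕ Fin b → (Fin 3 ⊕ ((V × Bool) ⊕ μ)) × Fin b :=
    Sum.elim (fun x => (Sum.inl x.1, x.2)) (fun l => (Sum.inr j, l)) with hg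
  have hN : (M.submatrix f g).rank ≤ 3 * b + d := le_trans (rank_submatrix_le M f g) hr
  have hblk : M.submatrix f g = fromBlocks 1
      (Matrix.of fun (x : Fin 3 × Fin b) (l : Fin b) => M (Sum.inl x.1, x.2) (Sum.inr j, l))
      (Matrix.of fun (k : Fin b) (x : Fin 3 × Fin b) => M (Sum.inr i, k) (Sum.inl x.1, x.2))
      (Matrix.of fun (k : Fin b) (l : Fin b) => M (Sum.inr i, k) (Sum.inr j, l)) := by
    ext a c
    rcases a with a | a <;> rcases c with c | c <;>
      simp [hf, hg, h1, Matrix.one_apply, Prod.ext_iff]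
  rw [hblk] at hN
  have h2 := (rb_schur _ _ _).trans hN
  have h3 : Fintype.card (Fin 3 × Fin b) = 3 * b := by simp
  rw [h3] at h2
  have h4 : blk M (Sum.inr i) (Sum.inr j) - (blk M (Sum.inr i) (Sum.inl 0) * blk M (Sum.inl 0) (Sum.inr j)
      + blk M (Sum.inr i) (Sum.inl 1) * blk M (Sum.inl 1) (Sum.inr j)
      + blk M (Sum.inr i) (Sum.inl 2) * blk M (Sum.inl 2) (Sum.inr j)) =
      (Matrix.of fun (k : Fin b) (l : Fin b) => M (Sum.inr i, k) (Sum.inr j, l)) -
      (Matrix.of fun (k : Fin b) (x : Fin 3 × Fin b) => M (Sum.inr i, k) (Sum.inl x.1, x.2)) *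
      (Matrix.of fun (x : Fin 3 × Fin b) (l : Fin b) => M (Sum.inl x.1, x.2) (Sum.inr j, l)) := by
    ext k l
    simp only [blk, Matrix.of_apply, Matrix.add_apply, Matrix.mul_apply, Matrix.sub_apply]
    rw [Fintype.sum_prod_type, Fin.sum_univ_three]
  unfold AE
  rw [h4]
  omega

section aecalc

variable {b : ℕ}

theorem ae_mono {c d : ℕ} {X Y : Matrix (Fin b) (Fin b) F} (h : AE c X Y) (hcd : c ≤ d) :
    AE d X Y := le_trans h hcd

theorem rb_rank_neg (X : Matrix (Fin b) (Fin b) F) : (-X).rank = X.rank := by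
  have h : ∀ Y : Matrix (Fin b) (Fin b) F, (-Y).rank ≤ Y.rank := by
    intro Y
    have e : -Y = (-1 : Matrix (Fin b) (Fin b) F) * Y := by simp
    rw [e]
    exact rank_mul_le_right _ _
  refine le_antisymm (h X) ?_
  have := h (-X)
  rwa [neg_neg] at this

theorem ae_symm {c : ℕ} {X Y : Matrix (Fin b) (Fin b) F} (h : AE c X Y) : AE c Y X := by
  unfold AE at *
  rw [← rb_rank_neg, neg_sub]
  exact h

theorem ae_trans {c d : ℕ} {X Y Z : Matrix (Fin b) (Fin b) F} (h1 : AE c X Y) (h2 : AE d Y Z) :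
    AE (c + d) X Z := by
  unfold AE at *
  have e : X - Z = (X - Y) + (Y - Z) := by abel
  rw [e]
  exact le_trans (rank_add_le' _ _) (add_le_add h1 h2)

theorem ae_mul_left {c : ℕ} {X Y : Matrix (Fin b) (Fin b) F} (h : AE c X Y)
    (Z : Matrix (Fin b) (Fin b) F) : AE c (Z * X) (Z * Y) := by
  unfold AE at *
  rw [← Matrix.mul_sub]
  exact le_trans (rank_mul_le_right _ _) h

theorem ae_mul_right {c : ℕ} {X Y : Matrix (Fin b) (Fin b) F} (h : AE c X Y)
    (Z : Matrix (Fin b) (Fin b) F) : AE c (X * Z) (Y * Z) := by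
  unfold AE at *
  rw [← Matrix.sub_mul]
  exact le_trans (rank_mul_le_left _ _) h

theorem ae_sub_right {c : ℕ} {X Y : Matrix (Fin b) (Fin b) F} (h : AE c X Y)
    (Z : Matrix (Fin b) (Fin b) F) : AE c (Z - X) (Z - Y) := by
  have h' := ae_symm h
  unfold AE at *
  have e : Z - X - (Z - Y) = Y - X := by abel
  rw [e]
  exact h'

theorem ae_zero {c : ℕ} {X Y : Matrix (Fin b) (Fin b) F} (h : AE c 0 (-X + Y)) : AE c X Y := by
  unfold AE at *
  have e : (0 : Matrix (Fin b) (Fin b) F) - (-X + Y) = X - Y := by abel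
  rwa [e] at h

end aecalc

theorem st_RB (F : Type u) [Field F] : ST_RB F := by
  intro V μ _ _ _ S b d M hM hr z hz
  have key := rb_key M (by
      intro a a' k l
      have := hM (Sum.inl a) (Sum.inl a') _ rfl k l
      rw [this]
      by_cases h1 : a = a' <;> by_cases h2 : k = l <;> simp [h1, h2]) hr
  have sp : ∀ {i j a}, pm S i j = some a → blk M i j = a • (1 : Matrix (Fin b) (Fin b) F) :=
    fun h => blk_of_spec hM h
  have hzi : ∀ i, blk M (Sum.inr (some (i, 1))) (Sum.inl 2) = z i := by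
    intro i
    rw [hz]
  have hP : ∀ i, AE d (blk M (Sum.inl 1) (Sum.inr (Sum.inl (i, false)))) (z i) := by
    intro i
    have h := key (some (i, 1)) (Sum.inl (i, false))
    rw [sp (i := Sum.inr (some (i, 1))) (j := Sum.inr (Sum.inl (i, false))) (a := 0) (by simp [pm, Sp]),
      sp (i := Sum.inr (some (i, 1))) (j := Sum.inl 0) (a := 0) rfl,
      sp (i := Sum.inr (some (i, 1))) (j := Sum.inl 1) (a := -1) rfl,
      sp (i := Sum.inl 2) (j := Sum.inr (Sum.inl (i, false))) (a := 1) rfl, hzi] at h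
    simp only [zero_smul, zero_mul, zero_add, neg_smul, one_smul, neg_mul, one_mul, mul_one] at h
    exact ae_zero h
  have hMi : ∀ i, AE (2 * d) (blk M (Sum.inr (some (i, 0))) (Sum.inl 0)) (z i) := by
    intro i
    have h := key (some (i, 0)) (Sum.inl (i, false))
    rw [sp (i := Sum.inr (some (i, 0))) (j := Sum.inr (Sum.inl (i, false))) (a := 0) (by simp [pm, Sp]),
      sp (i := Sum.inr (some (i, 0))) (j := Sum.inl 1) (a := -1) rfl,
      sp (i := Sum.inr (some (i, 0))) (j := Sum.inl 2) (a := 0) rfl,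
      sp (i := Sum.inl 0) (j := Sum.inr (Sum.inl (i, false))) (a := 1) rfl] at h
    simp only [zero_smul, zero_mul, add_zero, neg_smul, one_smul, neg_mul, one_mul, mul_one] at h
    rw [add_comm] at h
    exact ae_mono (ae_trans (ae_symm (ae_zero h)) (hP i)) (by omega)
  have hD2 : ∀ i, AE d (blk M (Sum.inl 1) (Sum.inr (Sum.inl (i, true)))) (z i) := by
    intro i
    have h := key (some (i, 1)) (Sum.inl (i, true))
    rw [sp (i := Sum.inr (some (i, 1))) (j := Sum.inr (Sum.inl (i, true))) (a := 0) (by simp [pm, Sp]),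
      sp (i := Sum.inr (some (i, 1))) (j := Sum.inl 0) (a := 0) rfl,
      sp (i := Sum.inr (some (i, 1))) (j := Sum.inl 1) (a := -1) rfl,
      sp (i := Sum.inl 2) (j := Sum.inr (Sum.inl (i, true))) (a := 1) rfl, hzi] at h
    simp only [zero_smul, zero_mul, zero_add, neg_smul, one_smul, neg_mul, one_mul, mul_one] at h
    exact ae_zero h
  have hD1 : ∀ i, AE (2 * d) (blk M (Sum.inl 0) (Sum.inr (Sum.inl (i, true)))) (z i) := by
    intro i
    have h := key none (Sum.inl (i, true))
    rw [sp (i := Sum.inr none) (j := Sum.inr (Sum.inl (i, true))) (a := 0) rfl,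
      sp (i := Sum.inr none) (j := Sum.inl 0) (a := 1) rfl,
      sp (i := Sum.inr none) (j := Sum.inl 1) (a := -1) rfl,
      sp (i := Sum.inr none) (j := Sum.inl 2) (a := 0) rfl] at h
    simp only [zero_smul, zero_mul, add_zero, neg_smul, one_smul, neg_mul, one_mul] at h
    rw [add_comm] at h
    exact ae_mono (ae_trans (ae_symm (ae_zero h)) (hD2 i)) (by omega)
  have hN : ∀ i, AE (3 * d) (blk M (Sum.inr (some (i, 2))) (Sum.inl 2)) (z i) := by
    intro i
    have h := key (some (i, 2)) (Sum.inl (i, true))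
    rw [sp (i := Sum.inr (some (i, 2))) (j := Sum.inr (Sum.inl (i, true))) (a := 0) (by simp [pm, Sp]),
      sp (i := Sum.inr (some (i, 2))) (j := Sum.inl 0) (a := -1) rfl,
      sp (i := Sum.inr (some (i, 2))) (j := Sum.inl 1) (a := 0) rfl,
      sp (i := Sum.inl 2) (j := Sum.inr (Sum.inl (i, true))) (a := 1) rfl] at h
    simp only [zero_smul, zero_mul, add_zero, neg_smul, one_smul, neg_mul, one_mul, mul_one] at h
    exact ae_mono (ae_trans (ae_symm (ae_zero h)) (hD1 i)) (by omega)
  refine ⟨?_, ?_, ?_⟩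
  · intro m
    have h1 := key (some (S.r m, 2)) (Sum.inr m)
    rw [sp (i := Sum.inr (some (S.r m, 2))) (j := Sum.inr (Sum.inr m)) (a := 0) (by simp [pm, Sp]),
      sp (i := Sum.inr (some (S.r m, 2))) (j := Sum.inl 0) (a := -1) rfl,
      sp (i := Sum.inr (some (S.r m, 2))) (j := Sum.inl 1) (a := 0) rfl,
      sp (i := Sum.inl 2) (j := Sum.inr (Sum.inr m)) (a := 1) rfl] at h1
    simp only [zero_smul, zero_mul, add_zero, neg_smul, one_smul, neg_mul, one_mul, mul_one] at h1
    replace h1 := ae_trans (ae_zero h1) (hN (S.r m))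
    have h2 := key (some (S.o m, 1)) (Sum.inr m)
    rw [sp (i := Sum.inr (some (S.o m, 1))) (j := Sum.inr (Sum.inr m)) (a := 0) (by simp [pm, Sp]),
      sp (i := Sum.inr (some (S.o m, 1))) (j := Sum.inl 0) (a := 0) rfl,
      sp (i := Sum.inr (some (S.o m, 1))) (j := Sum.inl 1) (a := -1) rfl,
      sp (i := Sum.inl 2) (j := Sum.inr (Sum.inr m)) (a := 1) rfl, hzi] at h2
    simp only [zero_smul, zero_mul, zero_add, neg_smul, one_smul, neg_mul, one_mul, mul_one] at h2
    replace h2 := ae_zero h2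
    have h3 := key (some (S.l m, 0)) (Sum.inr m)
    rw [sp (i := Sum.inr (some (S.l m, 0))) (j := Sum.inr (Sum.inr m)) (a := 0) (by simp [pm, Sp]),
      sp (i := Sum.inr (some (S.l m, 0))) (j := Sum.inl 1) (a := -1) rfl,
      sp (i := Sum.inr (some (S.l m, 0))) (j := Sum.inl 2) (a := 0) rfl] at h3
    simp only [zero_smul, zero_mul, add_zero, neg_smul, one_smul, neg_mul, one_mul] at h3
    rw [add_comm] at h3
    replace h3 := ae_symm (ae_zero h3)
    have g1 := ae_mul_right (ae_symm (hMi (S.l m))) (z (S.r m))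
    have g2 := ae_mul_left (ae_symm h1) (blk M (Sum.inr (some (S.l m, 0))) (Sum.inl 0))
    exact ae_mono (ae_trans (ae_trans (ae_trans g1 g2) h3) h2) (by omega)
  · intro i j a hij hd
    have h := key (some (i, 1)) (Sum.inl (j, false))
    rw [sp (i := Sum.inr (some (i, 1))) (j := Sum.inr (Sum.inl (j, false))) (a := a)
        (by simp [pm, Sp, hij, hd]),
      sp (i := Sum.inr (some (i, 1))) (j := Sum.inl 0) (a := 0) rfl,
      sp (i := Sum.inr (some (i, 1))) (j := Sum.inl 1) (a := -1) rfl,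
      sp (i := Sum.inl 2) (j := Sum.inr (Sum.inl (j, false))) (a := 1) rfl, hzi] at h
    simp only [zero_smul, zero_mul, zero_add, neg_smul, one_smul, neg_mul, one_mul, mul_one] at h
    rw [neg_add_eq_sub] at h
    exact ae_mono (ae_trans (ae_sub_right (ae_symm (hP j)) (z i)) (ae_symm h)) (by omega)
  · intro i a hk
    rw [← hzi]
    exact sp (i := Sum.inr (some (i, 1))) (j := Sum.inl 2) hk

end Pool.Agent.Helper21.FR
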